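import Pool.Agent.H606R2.MinRank.PolyT

/-!
# Approximating the minimum rank of a variable matrix is hard for the existential theory of the reals

For every `ε` with `0 < ε < 1` the promise problem `GapMinRank_ε` is `∃ℝ`-hard.  The reduction sends
a sentence to a variable matrix whose minimum rank is at most `2` if the sentence is true and at
least `4` if it is false.  The definitions are in `Pool.Agent.H606R2.MinRank.Defs`.
-/

namespace Pool.Agent.Results.MP_3930bf_lc.GapHard

open Pool.Agent.H606R2.MinRank Pool.Agent.NPC.H606MinRank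

/-- `GapMinRank_ε` is `∃ℝ`-hard for every `ε` with `0 < ε < 1`. -/
theorem result (ε : ℝ) (_h0 : 0 < ε) (h1 : ε < 1) : ExistsRHard (GapMinRank ε) := by
  refine ⟨red, polyTimeMap_of_poly poly_red, fun φ => ⟨fun h => ?_, fun h => ?_⟩⟩
  · obtain ⟨x, hx⟩ := (sysOf_iff φ).1 h
    exact ⟨by simp [red], minRank_le_two hx⟩
  · have h4 : 4 ≤ (sysMat (sysOf φ.code)).minRank :=
      four_le_minRank (fun hx => h ((sysOf_iff φ).2 hx))
    refine ⟨by simp [red], ?_⟩
    have h5 : (4 : ℝ) ≤ ((sysMat (sysOf φ.code)).minRank : ℝ) := by exact_mod_cast h4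
    change (1 + ε) * ((2 : ℕ) : ℝ) < ((sysMat (sysOf φ.code)).minRank : ℝ)
    push_cast
    linarith

end Pool.Agent.Results.MP_3930bf_lc.GapHard
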